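import Pool.Agent.H17.PRK.FBQ

/-!
# PRK: FBK
-/

set_option autoImplicit false

namespace Pool.PRK

open Matrix Polynomial Pool.HYP Blk

namespace Blk

section Unim

variable {A : Type} [CommRing A] {g : ℕ} {d : A}

theorem hk0 [Nontrivial A] {γ : A[X]} (hγ : γ.Monic) (hγd : γ.natDegree = 2 * g) (a b : ℕ)
    (h : a + b < 2 * g) : hk g 0 γ a b = if a + b = 2 * g - 1 then 1 else 0 := by
  unfold hk tau
  rw [mul_one, add_zero, hγd, (Polynomial.modByMonic_eq_self_iff hγ).mpr]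
  · rw [coeff_X_pow]
    simp only [eq_comm]
  · rw [degree_X_pow, degree_eq_natDegree hγ.ne_zero, hγd]
    exact_mod_cast h

/-- The order in which the matrix is triangular. -/
def bo (g : ℕ) (i : Fin (2 * g + 1)) : ℕ :=
  if (i : ℕ) < g then g - 1 - i else if (i : ℕ) = g then g else 3 * g + 1 - i

theorem bo0 {g : ℕ} {i : Fin (2 * g + 1)} (h : (i : ℕ) < g) : bo g i = g - 1 - i := if_pos h
theorem bo1 {g : ℕ} {i : Fin (2 * g + 1)} (h : (i : ℕ) = g) : bo g i = g := by
  rw [bo, if_neg (by omega), if_pos h]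
theorem bo2 {g : ℕ} {i : Fin (2 * g + 1)} (h : g < (i : ℕ)) : bo g i = 3 * g + 1 - i := by
  rw [bo, if_neg (by omega), if_neg (by omega)]

theorem bo_inj (g : ℕ) : Function.Injective (bo g) := by
  intro i j h
  have hi := i.2
  have hj := j.2
  apply Fin.ext
  unfold bo at h
  split_ifs at h <;> omega

theorem unim [Finite A] [IsLocalRing A] (hm : IsLocalRing.maximalIdeal A = Ideal.span {d})
    {c : A} {γ : A[X]} (hγ : γ.Monic) (hγd : γ.natDegree = 2 * g)
    {G S : Matrix (Fin (2 * g + 1)) (Fin (2 * g + 1)) A} (h : BU g d c γ G S) : IsUnit G.det := by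
  have hG := h.1
  set M : Matrix (Fin (2 * g + 1)) (Fin (2 * g + 1)) (A ⧸ Ideal.span {d}) :=
    ((Ideal.Quotient.mk (Ideal.span {d})).mapMatrix G).submatrix id Fin.revPerm with hM
  have hMij : ∀ i j, M i j = Ideal.Quotient.mk (Ideal.span {d}) (G i (Fin.rev j)) := fun i j => rfl
  have hrev : ∀ j : Fin (2 * g + 1), ((Fin.rev j : Fin (2 * g + 1)) : ℕ) = 2 * g - j := by
    intro j
    rw [Fin.val_rev]
    omega
  have hmk : ∀ (i j : Fin (2 * g + 1)) (x : A) (v : ℕ), 1 ≤ v → d ^ v ∣ G i j - x →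
      Ideal.Quotient.mk (Ideal.span {d}) (G i j) = Ideal.Quotient.mk (Ideal.span {d}) x := by
    intro i j x v hv hx
    rw [Ideal.Quotient.eq, Ideal.mem_span_singleton]
    exact (dvd_pow_self d (by omega)).trans hx
  have hd0 : Ideal.Quotient.mk (Ideal.span {d}) d = 0 := by
    rw [Ideal.Quotient.eq_zero_iff_mem]
    exact Ideal.mem_span_singleton_self d
  -- the entries
  have eXY : ∀ i j : Fin (2 * g + 1), (i : ℕ) < g → g < (j : ℕ) → (i : ℕ) + j < 2 * g + 1 →
      Ideal.Quotient.mk (Ideal.span {d}) (G i j) = if (i : ℕ) + j = 2 * g then -1 else 0 := by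
    intro i j hi hj hij
    rw [hmk i j _ _ (by rw [wt0 hi, wt2 hj]) (hG i j), G0, wt0 hi, wt2 hj]
    have e1 : rho g i = i := by simp [rho, hi]
    have e2 : rho g j = j - 1 := by simp [rho, show ¬ (j : ℕ) < g by omega]
    rw [e1, e2, hk0 hγ hγd _ _ (by omega)]
    by_cases h3 : (i : ℕ) + j = 2 * g
    · rw [if_pos h3, if_neg (by norm_num), if_pos (by omega)]
      simp
    · rw [if_neg h3, if_neg (by norm_num), if_neg (by omega)]
      simp
  have eYX : ∀ i j : Fin (2 * g + 1), g < (i : ℕ) → (j : ℕ) < g → (i : ℕ) + j < 2 * g + 1 →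
      Ideal.Quotient.mk (Ideal.span {d}) (G i j) = if (i : ℕ) + j = 2 * g then -1 else 0 := by
    intro i j hi hj hij
    rw [hmk i j _ _ (by rw [wt2 hi, wt0 hj]) (hG i j), G0, wt2 hi, wt0 hj]
    have e1 : rho g j = j := by simp [rho, hj]
    have e2 : rho g i = i - 1 := by simp [rho, show ¬ (i : ℕ) < g by omega]
    rw [e1, e2, hk0 hγ hγd _ _ (by omega)]
    by_cases h3 : (i : ℕ) + j = 2 * g
    · rw [if_pos h3, if_neg (by norm_num), if_pos (by omega)]
      simp
    · rw [if_neg h3, if_neg (by norm_num), if_neg (by omega)]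
      simp
  have eee : ∀ i j : Fin (2 * g + 1), (i : ℕ) = g → (j : ℕ) = g →
      Ideal.Quotient.mk (Ideal.span {d}) (G i j) = 1 := by
    intro i j hi hj
    rw [hmk i j _ _ (by rw [wt1 hi, wt1 hj]) (hG i j), G0, wt1 hi, wt1 hj]
    simp
  have eeY : ∀ i j : Fin (2 * g + 1), ((i : ℕ) = g ∧ g < (j : ℕ)) ∨ (g < (i : ℕ) ∧ (j : ℕ) = g) →
      Ideal.Quotient.mk (Ideal.span {d}) (G i j) = 0 := by
    rintro i j (⟨hi, hj⟩ | ⟨hi, hj⟩)
    · rw [hmk i j _ _ (by rw [wt1 hi, wt2 hj]) (hG i j), G0, wt1 hi, wt2 hj]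
      simp
    · rw [hmk i j _ _ (by rw [wt2 hi, wt1 hj]) (hG i j), G0, wt2 hi, wt1 hj]
      simp
  have eYY : ∀ i j : Fin (2 * g + 1), g < (i : ℕ) → g < (j : ℕ) →
      Ideal.Quotient.mk (Ideal.span {d}) (G i j) = 0 := by
    intro i j hi hj
    rw [hmk i j _ _ (by rw [wt2 hi, wt2 hj]; norm_num) (hG i j), G0, wt2 hi, wt2 hj]
    simp [hd0]
  have htri : ∀ i j, bo g j < bo g i → M i j = 0 := by
    intro i j hij
    rw [hMij]
    have hr := hrev j
    have hi := i.2
    have hj := j.2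
    rcases lt_trichotomy (i : ℕ) g with h3 | h3 | h3 <;>
    rcases lt_trichotomy (j : ℕ) g with h4 | h4 | h4
    · rw [bo0 h3, bo0 h4] at hij
      rw [eXY i _ h3 (by omega) (by omega), if_neg (by omega)]
    · rw [bo0 h3, bo1 h4] at hij
      omega
    · rw [bo0 h3, bo2 h4] at hij
      omega
    · exact eeY i _ (Or.inl ⟨h3, by omega⟩)
    · rw [bo1 h3, bo1 h4] at hij
      omega
    · rw [bo1 h3, bo2 h4] at hij
      omega
    · exact eYY i _ h3 (by omega)
    · exact eeY i _ (Or.inr ⟨h3, by omega⟩)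
    · rw [bo2 h3, bo2 h4] at hij
      rw [eYX i _ h3 (by omega) (by omega), if_neg (by omega)]
  have hdiag : ∀ i, M i i = 1 ∨ M i i = -1 := by
    intro i
    rw [hMij]
    have hr := hrev i
    have hi := i.2
    rcases lt_trichotomy (i : ℕ) g with h3 | h3 | h3
    · rw [eXY i _ h3 (by omega) (by omega), if_pos (by omega)]
      exact Or.inr rfl
    · exact Or.inl (eee i _ h3 (by omega))
    · rw [eYX i _ h3 (by omega) (by omega), if_pos (by omega)]
      exact Or.inr rfl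
  have hdetM : M.det = ∏ i, M i i := by
    letI : LinearOrder (Fin (2 * g + 1)) := LinearOrder.lift' (bo g) (bo_inj g)
    exact Matrix.det_of_upperTriangular (fun i j hij => htri i j hij)
  have hne : Ideal.span {d} ≠ ⊤ := by
    rw [← hm]
    exact Ideal.IsPrime.ne_top'
  have hnt : Nontrivial (A ⧸ Ideal.span {d}) := Ideal.Quotient.nontrivial_iff.mpr hne
  have hMu : IsUnit M.det := by
    rw [hdetM, IsUnit.prod_univ_iff]
    intro i
    rcases hdiag i with h3 | h3 <;> rw [h3]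
    · exact isUnit_one
    · exact isUnit_one.neg
  rw [isUnit_iff hm]
  intro h3
  have h4 : Ideal.Quotient.mk (Ideal.span {d}) G.det = 0 := by
    rw [Ideal.Quotient.eq_zero_iff_mem, Ideal.mem_span_singleton]
    exact h3
  rw [RingHom.map_det] at h4
  have h5 : M.det = 0 := by
    rw [hM]
    have h6 := Matrix.det_permute' (Fin.revPerm : Equiv.Perm (Fin (2 * g + 1)))
      ((Ideal.Quotient.mk (Ideal.span {d})).mapMatrix G)
    rw [h6, h4, mul_zero]
  rw [h5] at hMu
  exact not_isUnit_zero hMu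

end Unim

end Blk

/-- FBK. -/
theorem fbk (hFBA : FBAStmt) (hFBQ : FBQStmt) : FBKStmt := by
  intro A _ _ _ d q g hg hm hA hq h2 c γ hγ hγd G
  classical
  have hq2 := q_ge hm hq
  set X := {S : Matrix (Fin (2 * g + 1)) (Fin (2 * g + 1)) A | ShA g d c γ G S} with hX
  rcases Set.eq_empty_or_nonempty X with h0 | ⟨S₁, hS₁⟩
  · rw [h0]
    simp
  have hGs : Gᵀ = G := hS₁.1
  have hGu : IsUnit G.det := by
    obtain ⟨_, h3, a, ha, hb⟩ := hS₁
    have h4 := unim hm hγ hγd ((blk_iff c γ _ _ (act_symm hGs a) (act_symm h3 a)).mp hb)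
    rw [det_mul, det_mul, det_transpose] at h4
    exact isUnit_of_mul_isUnit_right (isUnit_of_mul_isUnit_left h4)
  have hA1 := hFBA A d q g hg hm hA hq h2 G hGs hGu
  have hQ1 := hFBQ A d q g hg hm hA hq h2 c γ hγ hγd
  set Cl := {G' : Matrix (Fin (2 * g + 1)) (Fin (2 * g + 1)) A |
        ∃ a : Matrix (Fin (2 * g + 1)) (Fin (2 * g + 1)) A, IsUnit a.det ∧
          G' = aᵀ * G * a} with hCl
  set Sh := {p : Matrix (Fin (2 * g + 1)) (Fin (2 * g + 1)) A ×
        Matrix (Fin (2 * g + 1)) (Fin (2 * g + 1)) A | ShA g d c γ p.1 p.2} with hSh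
  have hch : ∀ G' ∈ Cl, ∃ a : Matrix (Fin (2 * g + 1)) (Fin (2 * g + 1)) A, IsUnit a.det ∧
      G' = aᵀ * G * a := fun G' h => h
  choose! al hal1 hal2 using hch
  have hmain : (Cl ×ˢ X).ncard ≤ Sh.ncard := by
    refine Set.ncard_le_ncard_of_injOn (fun x => (x.1, (al x.1)ᵀ * x.2 * al x.1)) ?_ ?_
      (Set.toFinite _)
    · rintro ⟨G', S⟩ ⟨h3, h4⟩
      obtain ⟨h5, h6, b, hb, h7⟩ := h4
      have hu := hal1 G' h3
      refine ⟨?_, act_symm h6 _, (al G')⁻¹ * b, ?_, ?_⟩
      · rw [hal2 G' h3]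
        exact act_symm hGs _
      · rw [det_mul]
        exact (isUnit_nonsing_inv_det _ hu).mul hb
      · have e1 : ((al G')⁻¹ * b)ᵀ * G' * ((al G')⁻¹ * b) = bᵀ * G * b := by
          rw [act_mul]
          conv_lhs => rw [hal2 G' h3]
          have := act_inv hu G
          rw [← hal2 G' h3] at this ⊢
          rw [this]
        have e2 : ((al G')⁻¹ * b)ᵀ * ((al G')ᵀ * S * al G') * ((al G')⁻¹ * b) = bᵀ * S * b := by
          rw [act_mul, act_inv hu]
        rw [e1, e2]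
        exact h7
    · rintro ⟨G', S⟩ ⟨h3, h4⟩ ⟨G'', S'⟩ ⟨h5, h6⟩ heq
      simp only [Prod.mk.injEq] at heq
      obtain ⟨rfl, h7⟩ := heq
      have hu := hal1 G' h3
      have h8 : S = S' := by
        rw [← act_inv hu S, h7, act_inv hu]
      rw [h8]
  rw [Set.ncard_prod] at hmain
  have hqpos : 0 < q := by omega
  have h3 : (2 * (q - (2 * g + 1)) * X.ncard) *
      (q ^ (3 * ((2 * g + 1) * (g + 1))) * q ^ ((2 * g + 1) * (g + 2))) ≤
      (q * q ^ ((2 * g + 1) * (2 * g + 1))) *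
      (q ^ (3 * ((2 * g + 1) * (g + 1))) * q ^ ((2 * g + 1) * (g + 2))) := by
    calc (2 * (q - (2 * g + 1)) * X.ncard) *
          (q ^ (3 * ((2 * g + 1) * (g + 1))) * q ^ ((2 * g + 1) * (g + 2)))
        = ((q - (2 * g + 1)) * q ^ (3 * ((2 * g + 1) * (g + 1)))) *
            (2 * X.ncard * q ^ ((2 * g + 1) * (g + 2))) := by ring
      _ ≤ (2 * q * Cl.ncard) * (2 * X.ncard * q ^ ((2 * g + 1) * (g + 2))) :=
          Nat.mul_le_mul_right _ hA1
      _ = q * (4 * (Cl.ncard * X.ncard) * q ^ ((2 * g + 1) * (g + 2))) := by ring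
      _ ≤ q * (4 * Sh.ncard * q ^ ((2 * g + 1) * (g + 2))) :=
          Nat.mul_le_mul_left _ (Nat.mul_le_mul_right _ (Nat.mul_le_mul_left _ hmain))
      _ ≤ q * q ^ (6 * ((2 * g + 1) * (g + 1))) := Nat.mul_le_mul_left _ hQ1
      _ = _ := by
          have h5 : q ^ (6 * ((2 * g + 1) * (g + 1))) = q ^ ((2 * g + 1) * (2 * g + 1)) *
              (q ^ (3 * ((2 * g + 1) * (g + 1))) * q ^ ((2 * g + 1) * (g + 2))) := by
            rw [← pow_add, ← pow_add]
            congr 1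
            ring
          rw [h5]
          ring
  exact Nat.le_of_mul_le_mul_right h3 (by positivity)

end Pool.PRK
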