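import Mathlib

/-!
# PRK: finite local rings `A` of order `q³` with principal maximal ideal `(d)` and residue field of
order `q`: cosets of `(d^v)`
-/

set_option autoImplicit false

namespace Pool.PRK.Blk

open Matrix

section Chain

variable {A : Type} [CommRing A] [Finite A] [IsLocalRing A] {d : A} {q : ℕ}

theorem isUnit_iff (hm : IsLocalRing.maximalIdeal A = Ideal.span {d}) (x : A) :
    IsUnit x ↔ ¬ d ∣ x := by
  have h := IsLocalRing.mem_maximalIdeal x
  rw [hm, Ideal.mem_span_singleton, mem_nonunits_iff] at h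
  tauto

theorem idx_succ (hm : IsLocalRing.maximalIdeal A = Ideal.span {d})
    (hq : Nat.card (A ⧸ Ideal.span {d}) = q) (v : ℕ) (hv : d ^ v ≠ 0) :
    (Ideal.span {d ^ (v + 1)}).toAddSubgroup.index = q * (Ideal.span {d ^ v}).toAddSubgroup.index := by
  have hle : (Ideal.span {d ^ (v + 1)}).toAddSubgroup ≤ (Ideal.span {d ^ v}).toAddSubgroup := by
    intro x hx
    rw [Submodule.mem_toAddSubgroup, Ideal.mem_span_singleton] at hx ⊢
    exact (pow_dvd_pow d (Nat.le_succ v)).trans hx
  have h1 := AddSubgroup.relIndex_mul_index hle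
  rw [← h1]
  congr 1
  let f : A →+ A := AddMonoidHom.mulRight (d ^ v)
  have hr : f.range = (Ideal.span {d ^ v}).toAddSubgroup := by
    ext x
    rw [Submodule.mem_toAddSubgroup, Ideal.mem_span_singleton]
    constructor
    · rintro ⟨y, rfl⟩
      exact Dvd.intro_left y rfl
    · rintro ⟨y, rfl⟩
      exact ⟨y, by simp [f, mul_comm]⟩
  rw [← hr, ← AddSubgroup.index_comap]
  have hc : AddSubgroup.comap f (Ideal.span {d ^ (v + 1)}).toAddSubgroup =
      (Ideal.span {d}).toAddSubgroup := by
    ext x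
    rw [AddSubgroup.mem_comap, Submodule.mem_toAddSubgroup, Submodule.mem_toAddSubgroup,
      Ideal.mem_span_singleton, Ideal.mem_span_singleton]
    change d ^ (v + 1) ∣ x * d ^ v ↔ d ∣ x
    constructor
    · intro h
      by_contra hx
      rw [← isUnit_iff hm] at hx
      obtain ⟨y, hy⟩ := hx.dvd_mul_left.mp h |> fun h' => h'
      have h2 : d ^ v * (1 - d * y) = 0 := by
        rw [mul_sub, mul_one, sub_eq_zero]
        calc d ^ v = d ^ (v + 1) * y := hy
          _ = d ^ v * (d * y) := by ring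
      have h3 : IsUnit (1 - d * y) := by
        rw [isUnit_iff hm]
        intro h4
        have h5 : d ∣ 1 := by
          have := dvd_add h4 (Dvd.intro y rfl)
          simpa using this
        have h6 : IsUnit (1 : A) := isUnit_one
        rw [isUnit_iff hm] at h6
        exact h6 h5
      exact hv (h3.mul_left_eq_zero.mp h2)
    · rintro ⟨y, rfl⟩
      exact ⟨y, by ring⟩
  rw [hc]
  exact hq

theorem q_ge (hm : IsLocalRing.maximalIdeal A = Ideal.span {d})
    (hq : Nat.card (A ⧸ Ideal.span {d}) = q) : 2 ≤ q := by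
  rw [← hq]
  have hne : Ideal.span {d} ≠ ⊤ := by
    rw [← hm]
    exact Ideal.IsPrime.ne_top'
  have : Nontrivial (A ⧸ Ideal.span {d}) := Ideal.Quotient.nontrivial_iff.mpr hne
  have : Finite (A ⧸ Ideal.span {d}) := Finite.of_surjective _ Ideal.Quotient.mk_surjective
  exact Finite.one_lt_card

theorem idx_eq (hm : IsLocalRing.maximalIdeal A = Ideal.span {d}) (hA : Nat.card A = q ^ 3)
    (hq : Nat.card (A ⧸ Ideal.span {d}) = q) (v : ℕ) (hv : v ≤ 3) :
    (Ideal.span {d ^ v}).toAddSubgroup.index = q ^ v := by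
  have hq2 := q_ge hm hq
  have h0 : (Ideal.span {d ^ 0}).toAddSubgroup.index = 1 := by
    rw [pow_zero, Ideal.span_singleton_one, AddSubgroup.index_eq_one]
    rfl
  have hz : ∀ w, d ^ w = 0 → (Ideal.span {d ^ w}).toAddSubgroup.index = q ^ 3 := by
    intro w hw
    rw [hw, Ideal.span_singleton_zero, ← hA]
    exact AddSubgroup.index_bot
  have h1 : (Ideal.span {d ^ 1}).toAddSubgroup.index = q := by
    rw [idx_succ hm hq 0 (by simp), h0, mul_one]
  have hd1 : d ^ 1 ≠ 0 := by
    intro h
    have := hz 1 h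
    rw [h1] at this
    nlinarith [Nat.pow_le_pow_right (by omega : 0 < q) (by norm_num : 2 ≤ 3), sq q]
  have h2 : (Ideal.span {d ^ 2}).toAddSubgroup.index = q ^ 2 := by
    rw [idx_succ hm hq 1 hd1, h1]; ring
  have hd2 : d ^ 2 ≠ 0 := by
    intro h
    have := hz 2 h
    rw [h2] at this
    have h3 := Nat.pow_right_injective hq2 this
    omega
  have h3 : (Ideal.span {d ^ 3}).toAddSubgroup.index = q ^ 3 := by
    rw [idx_succ hm hq 2 hd2, h2]; ring
  interval_cases v
  · simp
  · simpa using h1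
  · exact h2
  · exact h3

theorem card_coset (hm : IsLocalRing.maximalIdeal A = Ideal.span {d}) (hA : Nat.card A = q ^ 3)
    (hq : Nat.card (A ⧸ Ideal.span {d}) = q) (v : ℕ) (hv : v ≤ 3) (x₀ : A) :
    {x : A | d ^ v ∣ x - x₀}.ncard = q ^ (3 - v) := by
  have hq2 := q_ge hm hq
  have h1 := AddSubgroup.card_mul_index (Ideal.span {d ^ v}).toAddSubgroup
  rw [idx_eq hm hA hq v hv, hA] at h1
  have h2 : Nat.card (Ideal.span {d ^ v}).toAddSubgroup = q ^ (3 - v) := by
    have h3 : q ^ 3 = q ^ (3 - v) * q ^ v := by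
      rw [← pow_add]
      congr 1
      omega
    rw [h3] at h1
    exact Nat.eq_of_mul_eq_mul_right (by positivity) h1
  rw [← h2, ← Nat.card_coe_set_eq]
  refine Nat.card_congr ⟨fun x => ⟨x.1 - x₀, ?_⟩, fun y => ⟨y.1 + x₀, ?_⟩, fun x => ?_, fun y => ?_⟩
  · rw [Submodule.mem_toAddSubgroup, Ideal.mem_span_singleton]
    exact x.2
  · have := y.2
    rw [Submodule.mem_toAddSubgroup, Ideal.mem_span_singleton] at this
    simpa using this
  · simp
  · simp

end Chain

end Pool.PRK.Blk
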