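import Pool.Agent.H41.PRK.S5
import Pool.Agent.H17.PRK.Blk

/-!
# PRK: the group preserving the pairs in standard form, in uniform form
-/

set_option autoImplicit false

namespace Pool.PRK.Blk

open Matrix Polynomial Pool.HYP

/-- The weight of an index: `0` in the first block, `1` in the middle, `2` in the last block. -/
def wt (g : ℕ) (i : Fin (2 * g + 1)) : ℕ := if (i : ℕ) < g then 0 else if (i : ℕ) = g then 1 else 2

theorem wt0 {g : ℕ} {i : Fin (2 * g + 1)} (h : (i : ℕ) < g) : wt g i = 0 := if_pos h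
theorem wt1 {g : ℕ} {i : Fin (2 * g + 1)} (h : (i : ℕ) = g) : wt g i = 1 := by
  simp [wt, h]
theorem wt2 {g : ℕ} {i : Fin (2 * g + 1)} (h : g < (i : ℕ)) : wt g i = 2 := by
  rw [wt, if_neg (by omega), if_neg (by omega)]

theorem wt_le (g : ℕ) (i : Fin (2 * g + 1)) : wt g i ≤ 2 := by
  unfold wt
  split_ifs <;> omega

theorem wt_cases {g : ℕ} (i : Fin (2 * g + 1)) :
    ((i : ℕ) < g ∧ wt g i = 0) ∨ ((i : ℕ) = g ∧ wt g i = 1) ∨ (g < (i : ℕ) ∧ wt g i = 2) := by
  rcases lt_trichotomy (i : ℕ) g with h | h | h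
  · exact Or.inl ⟨h, wt0 h⟩
  · exact Or.inr (Or.inl ⟨h, wt1 h⟩)
  · exact Or.inr (Or.inr ⟨h, wt2 h⟩)

/-- The diagonal of signs. -/
def sg {A : Type} (g : ℕ) (ε ε' : A) (i : Fin (2 * g + 1)) : A := if wt g i = 1 then ε' else ε

variable {A : Type} [CommRing A] {g : ℕ} {d : A}

/-- The elements of `QGr` in uniform form. -/
def QU (g : ℕ) (d : A) (s : Fin (2 * g + 1) → A) (a : Matrix (Fin (2 * g + 1)) (Fin (2 * g + 1)) A) :
    Prop :=
  ∀ i j, d ^ ((wt g j + 2 - wt g i) / 2) ∣ a i j - if i = j then s i else 0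

theorem qgr_iff (a : Matrix (Fin (2 * g + 1)) (Fin (2 * g + 1)) A) :
    a ∈ QGr g d ↔ ∃ ε ε' : A, (ε = 1 ∨ ε = -1) ∧ (ε' = 1 ∨ ε' = -1) ∧ QU g d (sg g ε ε') a := by
  constructor
  · rintro ⟨ε, ε', h1, h2, hXX, hYY, hee, hXe, heY, hXY⟩
    refine ⟨ε, ε', h1, h2, fun i j => ?_⟩
    rcases wt_cases i with ⟨hi, hwi⟩ | ⟨hi, hwi⟩ | ⟨hi, hwi⟩ <;>
    rcases wt_cases j with ⟨hj, hwj⟩ | ⟨hj, hwj⟩ | ⟨hj, hwj⟩ <;>
    rw [hwi, hwj]
    · have := hXX i j hi hj
      simpa [sg, hwi] using this
    · have h3 : i ≠ j := by intro h; rw [h] at hi; omega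
      rw [if_neg h3, sub_zero]
      simpa using hXe i j hi hj
    · have h3 : i ≠ j := by intro h; rw [h] at hi; omega
      rw [if_neg h3, sub_zero]
      simpa using hXY i j hi hj
    · simp
    · have h3 : i = j := Fin.ext (by omega)
      subst h3
      have := hee i hi
      simpa [sg, hwi] using this
    · have h3 : i ≠ j := by intro h; rw [h] at hi; omega
      rw [if_neg h3, sub_zero]
      simpa using heY i j hi hj
    · simp
    · simp
    · have := hYY i j hi hj
      simpa [sg, hwi] using this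
  · rintro ⟨ε, ε', h1, h2, h⟩
    refine ⟨ε, ε', h1, h2, fun i j hi hj => ?_, fun i j hi hj => ?_, fun i hi => ?_,
      fun i j hi hj => ?_, fun i j hi hj => ?_, fun i j hi hj => ?_⟩
    · have := h i j
      rw [wt0 hi, wt0 hj] at this
      simpa [sg, wt0 hi] using this
    · have := h i j
      rw [wt2 hi, wt2 hj] at this
      simpa [sg, wt2 hi] using this
    · have := h i i
      rw [wt1 hi] at this
      simpa [sg, wt1 hi] using this
    · have h3 : i ≠ j := by intro h; rw [h] at hi; omega
      have := h i j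
      rw [wt0 hi, wt1 hj, if_neg h3, sub_zero] at this
      simpa using this
    · have h3 : i ≠ j := by intro h; rw [h] at hi; omega
      have := h i j
      rw [wt1 hi, wt2 hj, if_neg h3, sub_zero] at this
      simpa using this
    · have h3 : i ≠ j := by intro h; rw [h] at hi; omega
      have := h i j
      rw [wt0 hi, wt2 hj, if_neg h3, sub_zero] at this
      simpa using this

/-- Products. -/
theorem qu_mul {s s' : Fin (2 * g + 1) → A} {a b : Matrix (Fin (2 * g + 1)) (Fin (2 * g + 1)) A}
    (ha : QU g d s a) (hb : QU g d s' b) : QU g d (fun i => s i * s' i) (a * b) := by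
  intro i j
  have e1 : (a * b) i j - (if i = j then s i * s' i else 0) =
      ∑ k, (a i k * b k j - (if i = k then s i else 0) * (if k = j then s' k else 0)) := by
    rw [Finset.sum_sub_distrib, Matrix.mul_apply]
    congr 1
    rw [Finset.sum_eq_single i]
    · by_cases h : i = j
      · subst h; simp
      · simp [h]
    · intro k _ hk
      rw [if_neg (fun h => hk h.symm), zero_mul]
    · intro h; exact absurd (Finset.mem_univ _) h
  rw [e1]
  refine Finset.dvd_sum fun k _ => ?_
  have e2 : a i k * b k j - (if i = k then s i else 0) * (if k = j then s' k else 0) =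
      (a i k - if i = k then s i else 0) * (b k j - if k = j then s' k else 0) +
      (a i k - if i = k then s i else 0) * (if k = j then s' k else 0) +
      (if i = k then s i else 0) * (b k j - if k = j then s' k else 0) := by ring
  rw [e2]
  have hwi := wt_le g i
  have hwj := wt_le g j
  have hwk := wt_le g k
  refine dvd_add (dvd_add ?_ ?_) ?_
  · refine dvd_trans (pow_dvd_pow d ?_) (pow_add d _ _ ▸ mul_dvd_mul (ha i k) (hb k j))
    omega
  · by_cases h : k = j
    · subst h
      exact (ha i k).mul_right _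
    · rw [if_neg h, mul_zero]
      exact dvd_zero _
  · by_cases h : i = k
    · subst h
      exact (hb i j).mul_left _
    · rw [if_neg h, zero_mul]
      exact dvd_zero _

/-- Congruence. -/
theorem qu_cong {s : Fin (2 * g + 1) → A} {a M : Matrix (Fin (2 * g + 1)) (Fin (2 * g + 1)) A}
    (ha : QU g d s a) (m v : ℕ → ℕ → ℕ)
    (hM : ∀ i j, d ^ m (wt g i) (wt g j) ∣ M i j)
    (h1 : ∀ x ≤ 2, ∀ y ≤ 2, ∀ z ≤ 2, v x y ≤ (x + 2 - z) / 2 + m z y)
    (h2 : ∀ x ≤ 2, ∀ y ≤ 2, ∀ z ≤ 2, v x y ≤ m x z + (y + 2 - z) / 2)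
    (h3 : ∀ x ≤ 2, ∀ y ≤ 2, ∀ z ≤ 2, ∀ t ≤ 2,
      v x y ≤ (x + 2 - z) / 2 + m z t + (y + 2 - t) / 2) (i j : Fin (2 * g + 1)) :
    d ^ v (wt g i) (wt g j) ∣ (aᵀ * M * a) i j - s i * M i j * s j := by
  have hwi := wt_le g i
  have hwj := wt_le g j
  have e1 : (aᵀ * M * a) i j - s i * M i j * s j =
      ∑ l, ∑ k, (a k i * M k l * a l j - (if k = i then s k else 0) * M k l *
        (if l = j then s l else 0)) := by
    have e3 : (aᵀ * M * a) i j = ∑ l, ∑ k, a k i * M k l * a l j := by
      rw [Matrix.mul_apply]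
      refine Finset.sum_congr rfl fun l _ => ?_
      rw [Matrix.mul_apply, Finset.sum_mul]
      rfl
    have e4 : s i * M i j * s j = ∑ l, ∑ k, (if k = i then s k else 0) * M k l *
        (if l = j then s l else 0) := by
      rw [Finset.sum_eq_single j]
      · rw [Finset.sum_eq_single i]
        · simp
        · intro k _ hk; rw [if_neg hk]; ring
        · intro h; exact absurd (Finset.mem_univ _) h
      · intro l _ hl
        refine Finset.sum_eq_zero fun k _ => ?_
        rw [if_neg hl, mul_zero]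
      · intro h; exact absurd (Finset.mem_univ _) h
    rw [e3, e4, ← Finset.sum_sub_distrib]
    refine Finset.sum_congr rfl fun l _ => ?_
    rw [← Finset.sum_sub_distrib]
  rw [e1]
  refine Finset.dvd_sum fun l _ => Finset.dvd_sum fun k _ => ?_
  have e2 : a k i * M k l * a l j - (if k = i then s k else 0) * M k l *
      (if l = j then s l else 0) =
      (a k i - if k = i then s k else 0) * M k l * (a l j - if l = j then s l else 0) +
      (a k i - if k = i then s k else 0) * M k l * (if l = j then s l else 0) +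
      (if k = i then s k else 0) * (M k l * (a l j - if l = j then s l else 0)) := by ring
  rw [e2]
  have hwl := wt_le g l
  have hwk := wt_le g k
  refine dvd_add (dvd_add ?_ ?_) ?_
  · refine dvd_trans (pow_dvd_pow d (h3 _ hwi _ hwj _ hwk _ hwl)) ?_
    rw [pow_add, pow_add]
    exact mul_dvd_mul (mul_dvd_mul (ha k i) (hM k l)) (ha l j)
  · by_cases h : l = j
    · subst h
      refine Dvd.dvd.mul_right ?_ _
      refine dvd_trans (pow_dvd_pow d (h1 _ hwi _ hwj _ hwk)) ?_
      rw [pow_add]
      exact mul_dvd_mul (ha k i) (hM k l)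
    · rw [if_neg h, mul_zero]
      exact dvd_zero _
  · by_cases h : k = i
    · subst h
      refine Dvd.dvd.mul_left ?_ _
      refine dvd_trans (pow_dvd_pow d (h2 _ hwi _ hwj _ hwl)) ?_
      rw [pow_add]
      exact mul_dvd_mul (hM k l) (ha l j)
    · rw [if_neg h, zero_mul]
      exact dvd_zero _

/-- The index in the last block is shifted. -/
def rho (g : ℕ) (i : Fin (2 * g + 1)) : ℕ := if (i : ℕ) < g then i else (i : ℕ) - 1

/-- `τ(x^(i+j+k))`, as a function of two natural numbers. -/
noncomputable def hk (g k : ℕ) (γ : A[X]) (a b : ℕ) : A := tau γ (X ^ (a + b + k) * 1)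

theorem hk_eq (k : ℕ) (γ : A[X]) (a b : Fin (2 * g)) :
    gr k (2 * g) γ 1 a b = hk g k γ a b := rfl

/-- The standard form of `G`. -/
noncomputable def G0 (g : ℕ) (d : A) (γ : A[X]) (i j : Fin (2 * g + 1)) : A :=
  if wt g i = 1 ∨ wt g j = 1 then (if wt g i = wt g j then 1 else 0)
  else - (d ^ ((wt g i + wt g j - 1) / 2) * hk g 0 γ (rho g i) (rho g j))

/-- The standard form of `S`. -/
noncomputable def S0 (g : ℕ) (d c : A) (γ : A[X]) (i j : Fin (2 * g + 1)) : A :=
  if wt g i = 1 ∨ wt g j = 1 then (if wt g i = wt g j then d * c else 0)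
  else - (d ^ ((wt g i + wt g j) / 2) * hk g 1 γ (rho g i) (rho g j))

theorem G0_symm (γ : A[X]) (i j : Fin (2 * g + 1)) : G0 g d γ i j = G0 g d γ j i := by
  refine if_congr or_comm (if_congr eq_comm rfl rfl) ?_
  rw [hk, hk, add_comm (wt g i), add_comm (rho g i)]

theorem S0_symm (c : A) (γ : A[X]) (i j : Fin (2 * g + 1)) :
    S0 g d c γ i j = S0 g d c γ j i := by
  refine if_congr or_comm (if_congr eq_comm rfl rfl) ?_
  rw [hk, hk, add_comm (wt g i), add_comm (rho g i)]

/-- `BlkD` in uniform form. -/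
def BU (g : ℕ) (d c : A) (γ : A[X]) (G S : Matrix (Fin (2 * g + 1)) (Fin (2 * g + 1)) A) : Prop :=
  (∀ i j, d ^ ((wt g i + wt g j) / 2) ∣ G i j - G0 g d γ i j) ∧
  ∀ i j, d ^ ((wt g i + wt g j) / 2 + 1) ∣ S i j - S0 g d c γ i j

theorem blk_iff (c : A) (γ : A[X]) (G S : Matrix (Fin (2 * g + 1)) (Fin (2 * g + 1)) A)
    (hG : Gᵀ = G) (hS : Sᵀ = S) : BlkD g d c γ G S ↔ BU g d c γ G S := by
  have hG' : ∀ i j, G i j = G j i := fun i j => by
    conv_lhs => rw [← hG]
    rfl
  have hS' : ∀ i j, S i j = S j i := fun i j => by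
    conv_lhs => rw [← hS]
    rfl
  constructor
  · intro h
    -- the entries in upper position
    have hxy : ∀ i j : Fin (2 * g + 1), (i : ℕ) < g → g < (j : ℕ) →
        d ^ ((wt g i + wt g j) / 2) ∣ G i j - G0 g d γ i j := by
      intro i j hi hj
      have h1 := h.gxy i j ⟨i, by omega⟩ ⟨(j : ℕ) - 1, by omega⟩ hi hj rfl
        (by simp only; omega)
      rw [hk_eq] at h1
      rw [G0, wt0 hi, wt2 hj]
      simpa [rho, hi, show ¬ (j : ℕ) < g by omega] using h1
    have hey : ∀ i j : Fin (2 * g + 1), (i : ℕ) = g → g < (j : ℕ) →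
        d ^ ((wt g i + wt g j) / 2) ∣ G i j - G0 g d γ i j := by
      intro i j hi hj
      have h1 := h.gey i j hi hj
      rw [G0, wt1 hi, wt2 hj]
      simpa using h1
    have sxe : ∀ i j : Fin (2 * g + 1), (i : ℕ) < g → (j : ℕ) = g →
        d ^ ((wt g i + wt g j) / 2 + 1) ∣ S i j - S0 g d c γ i j := by
      intro i j hi hj
      have h1 := h.sxe i j hi hj
      rw [S0, wt0 hi, wt1 hj]
      simpa using h1
    have sxy : ∀ i j : Fin (2 * g + 1), (i : ℕ) < g → g < (j : ℕ) →
        d ^ ((wt g i + wt g j) / 2 + 1) ∣ S i j - S0 g d c γ i j := by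
      intro i j hi hj
      have h1 := h.sxy i j ⟨i, by omega⟩ ⟨(j : ℕ) - 1, by omega⟩ hi hj rfl
        (by simp only; omega)
      rw [hk_eq] at h1
      rw [S0, wt0 hi, wt2 hj]
      simpa [rho, hi, show ¬ (j : ℕ) < g by omega] using h1
    have sey : ∀ i j : Fin (2 * g + 1), (i : ℕ) = g → g < (j : ℕ) →
        d ^ ((wt g i + wt g j) / 2 + 1) ∣ S i j - S0 g d c γ i j := by
      intro i j hi hj
      have h1 := h.sey i j hi hj
      rw [S0, wt1 hi, wt2 hj]
      simpa using h1
    constructor
    · intro i j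
      rcases wt_cases i with ⟨hi, hwi⟩ | ⟨hi, hwi⟩ | ⟨hi, hwi⟩ <;>
      rcases wt_cases j with ⟨hj, hwj⟩ | ⟨hj, hwj⟩ | ⟨hj, hwj⟩
      · rw [hwi, hwj]; simp
      · rw [hwi, hwj]; simp
      · exact hxy i j hi hj
      · rw [hwi, hwj]; simp
      · have h3 : i = j := Fin.ext (by omega)
        subst h3
        have h1 := h.gee i hi
        rw [G0, hwi]
        simpa using h1
      · exact hey i j hi hj
      · rw [hG', G0_symm, add_comm]
        exact hxy j i hj hi
      · rw [hG', G0_symm, add_comm]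
        exact hey j i hj hi
      · have h1 := h.gyy i j ⟨(i : ℕ) - 1, by omega⟩ ⟨(j : ℕ) - 1, by omega⟩ hi hj
          (by simp only; omega) (by simp only; omega)
        rw [hk_eq] at h1
        rw [G0, wt2 hi, wt2 hj]
        simpa [rho, show ¬ (j : ℕ) < g by omega, show ¬ (i : ℕ) < g by omega] using h1
    · intro i j
      rcases wt_cases i with ⟨hi, hwi⟩ | ⟨hi, hwi⟩ | ⟨hi, hwi⟩ <;>
      rcases wt_cases j with ⟨hj, hwj⟩ | ⟨hj, hwj⟩ | ⟨hj, hwj⟩
      · have h1 := h.sxx i j ⟨i, by omega⟩ ⟨j, by omega⟩ hi hj rfl rfl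
        rw [hk_eq] at h1
        rw [S0, wt0 hi, wt0 hj]
        simpa [rho, hi, hj] using h1
      · exact sxe i j hi hj
      · exact sxy i j hi hj
      · rw [hS', S0_symm, add_comm (wt g i)]
        exact sxe j i hj hi
      · have h3 : i = j := Fin.ext (by omega)
        subst h3
        have h1 := h.see i hi
        rw [S0, hwi]
        simpa using h1
      · exact sey i j hi hj
      · rw [hS', S0_symm, add_comm (wt g i)]
        exact sxy j i hj hi
      · rw [hS', S0_symm, add_comm (wt g i)]
        exact sey j i hj hi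
      · have h1 := h.syy i j ⟨(i : ℕ) - 1, by omega⟩ ⟨(j : ℕ) - 1, by omega⟩ hi hj
          (by simp only; omega) (by simp only; omega)
        rw [hk_eq] at h1
        rw [S0, wt2 hi, wt2 hj]
        simpa [rho, show ¬ (j : ℕ) < g by omega, show ¬ (i : ℕ) < g by omega] using h1
  · rintro ⟨h1, h2⟩
    refine ⟨fun i j a b hi hj ha hb => ?_, fun i hi => ?_, fun i j hi hj => ?_,
      fun i j a b hi hj ha hb => ?_, fun i j a b hi hj ha hb => ?_, fun i j hi hj => ?_,
      fun i j a b hi hj ha hb => ?_, fun i hi => ?_, fun i j hi hj => ?_,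
      fun i j a b hi hj ha hb => ?_⟩
    · have h3 := h1 i j
      have e1 : rho g i = a := by simp [rho, hi, ha]
      have e2 : rho g j = b := by simp [rho, show ¬ (j : ℕ) < g by omega]; omega
      rw [G0, wt0 hi, wt2 hj, e1, e2] at h3
      rw [hk_eq]
      simpa using h3
    · have h3 := h1 i i
      rw [G0, wt1 hi] at h3
      simpa using h3
    · have h3 := h1 i j
      rw [G0, wt1 hi, wt2 hj] at h3
      simpa using h3
    · have h3 := h1 i j
      have e1 : rho g i = a := by simp [rho, show ¬ (i : ℕ) < g by omega]; omega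
      have e2 : rho g j = b := by simp [rho, show ¬ (j : ℕ) < g by omega]; omega
      rw [G0, wt2 hi, wt2 hj, e1, e2] at h3
      rw [hk_eq]
      simpa using h3
    · have h3 := h2 i j
      have e1 : rho g i = a := by simp [rho, hi, ha]
      have e2 : rho g j = b := by simp [rho, hj, hb]
      rw [S0, wt0 hi, wt0 hj, e1, e2] at h3
      rw [hk_eq]
      simpa using h3
    · have h3 := h2 i j
      rw [S0, wt0 hi, wt1 hj] at h3
      simpa using h3
    · have h3 := h2 i j
      have e1 : rho g i = a := by simp [rho, hi, ha]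
      have e2 : rho g j = b := by simp [rho, show ¬ (j : ℕ) < g by omega]; omega
      rw [S0, wt0 hi, wt2 hj, e1, e2] at h3
      rw [hk_eq]
      simpa using h3
    · have h3 := h2 i i
      rw [S0, wt1 hi] at h3
      simpa using h3
    · have h3 := h2 i j
      rw [S0, wt1 hi, wt2 hj] at h3
      simpa using h3
    · have h3 := h2 i j
      have e1 : rho g i = a := by simp [rho, show ¬ (i : ℕ) < g by omega]; omega
      have e2 : rho g j = b := by simp [rho, show ¬ (j : ℕ) < g by omega]; omega
      rw [S0, wt2 hi, wt2 hj, e1, e2] at h3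
      rw [hk_eq]
      simpa using h3

theorem sg_sq {ε ε' : A} (h1 : ε = 1 ∨ ε = -1) (h2 : ε' = 1 ∨ ε' = -1) (i : Fin (2 * g + 1)) :
    sg g ε ε' i * sg g ε ε' i = 1 := by
  unfold sg
  split_ifs
  · rcases h2 with rfl | rfl <;> ring
  · rcases h1 with rfl | rfl <;> ring

/-- The pairs in standard form are preserved. -/
theorem bu_cong {ε ε' : A} (h1 : ε = 1 ∨ ε = -1) (h2 : ε' = 1 ∨ ε' = -1) (c : A) (γ : A[X])
    {a G S : Matrix (Fin (2 * g + 1)) (Fin (2 * g + 1)) A} (ha : QU g d (sg g ε ε') a)
    (h : BU g d c γ G S) : BU g d c γ (aᵀ * G * a) (aᵀ * S * a) := by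
  have hGv : ∀ i j, d ^ ((wt g i + wt g j - 1) / 2) ∣ G i j := by
    intro i j
    have h3 : d ^ ((wt g i + wt g j - 1) / 2) ∣ G0 g d γ i j := by
      have hwi := wt_le g i
      have hwj := wt_le g j
      unfold G0
      split_ifs with h4 h5
      · have : (wt g i + wt g j - 1) / 2 = 0 := by omega
        rw [this, pow_zero]
      · exact dvd_zero _
      · exact (Dvd.intro _ rfl).neg_right
    have h4 := (dvd_trans (pow_dvd_pow d (by omega : (wt g i + wt g j - 1) / 2 ≤
      (wt g i + wt g j) / 2)) (h.1 i j))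
    have := dvd_add h4 h3
    simpa using this
  have hSv : ∀ i j, d ^ ((wt g i + wt g j + 1) / 2) ∣ S i j := by
    intro i j
    have h3 : d ^ ((wt g i + wt g j + 1) / 2) ∣ S0 g d c γ i j := by
      have hwi := wt_le g i
      have hwj := wt_le g j
      unfold S0
      split_ifs with h4 h5
      · have : (wt g i + wt g j + 1) / 2 = 1 := by omega
        rw [this, pow_one]
        exact Dvd.intro _ rfl
      · exact dvd_zero _
      · have : (wt g i + wt g j + 1) / 2 = (wt g i + wt g j) / 2 := by omega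
        rw [this]
        exact (Dvd.intro _ rfl).neg_right
    have h4 := (dvd_trans (pow_dvd_pow d (by omega : (wt g i + wt g j + 1) / 2 ≤
      (wt g i + wt g j) / 2 + 1)) (h.2 i j))
    have := dvd_add h4 h3
    simpa using this
  constructor
  · intro i j
    have h3 := qu_cong ha (fun x y => (x + y - 1) / 2) (fun x y => (x + y) / 2) hGv
      (by intro x hx y hy z hz; interval_cases x <;> interval_cases y <;> interval_cases z <;> simp)
      (by intro x hx y hy z hz; interval_cases x <;> interval_cases y <;> interval_cases z <;> simp)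
      (by intro x hx y hy z hz t ht; interval_cases x <;> interval_cases y <;> interval_cases z <;>
            interval_cases t <;> simp) i j
    have h4 : d ^ ((wt g i + wt g j) / 2) ∣
        sg g ε ε' i * (G i j - G0 g d γ i j) * sg g ε ε' j :=
      Dvd.dvd.mul_right (Dvd.dvd.mul_left (h.1 i j) _) _
    have h5 : sg g ε ε' i * G0 g d γ i j * sg g ε ε' j = G0 g d γ i j := by
      unfold G0
      split_ifs with h6 h7
      · have : sg g ε ε' i = sg g ε ε' j := by unfold sg; rw [h7]
        rw [this, mul_one]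
        exact sg_sq h1 h2 j
      · ring
      · have : sg g ε ε' i = sg g ε ε' j := by
          unfold sg
          rw [if_neg (fun h => h6 (Or.inl h)), if_neg (fun h => h6 (Or.inr h))]
        rw [this]
        calc _ = (sg g ε ε' j * sg g ε ε' j) *
            -(d ^ ((wt g i + wt g j - 1) / 2) * hk g 0 γ (rho g i) (rho g j)) := by ring
          _ = _ := by rw [sg_sq h1 h2 j, one_mul]
    have h6 : (aᵀ * G * a) i j - G0 g d γ i j =
        ((aᵀ * G * a) i j - sg g ε ε' i * G i j * sg g ε ε' j) +
          sg g ε ε' i * (G i j - G0 g d γ i j) * sg g ε ε' j := by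
      conv_lhs => rw [← h5]
      ring
    rw [h6]
    exact dvd_add h3 h4
  · intro i j
    have h3 := qu_cong ha (fun x y => (x + y + 1) / 2) (fun x y => (x + y) / 2 + 1) hSv
      (by intro x hx y hy z hz; interval_cases x <;> interval_cases y <;> interval_cases z <;> simp)
      (by intro x hx y hy z hz; interval_cases x <;> interval_cases y <;> interval_cases z <;> simp)
      (by intro x hx y hy z hz t ht; interval_cases x <;> interval_cases y <;> interval_cases z <;>
            interval_cases t <;> simp) i j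
    have h4 : d ^ ((wt g i + wt g j) / 2 + 1) ∣
        sg g ε ε' i * (S i j - S0 g d c γ i j) * sg g ε ε' j :=
      Dvd.dvd.mul_right (Dvd.dvd.mul_left (h.2 i j) _) _
    have h5 : sg g ε ε' i * S0 g d c γ i j * sg g ε ε' j = S0 g d c γ i j := by
      unfold S0
      split_ifs with h6 h7
      · have : sg g ε ε' i = sg g ε ε' j := by unfold sg; rw [h7]
        rw [this]
        calc sg g ε ε' j * (d * c) * sg g ε ε' j = (sg g ε ε' j * sg g ε ε' j) * (d * c) := by ring
          _ = d * c := by rw [sg_sq h1 h2 j, one_mul]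
      · ring
      · have : sg g ε ε' i = sg g ε ε' j := by
          unfold sg
          rw [if_neg (fun h => h6 (Or.inl h)), if_neg (fun h => h6 (Or.inr h))]
        rw [this]
        calc _ = (sg g ε ε' j * sg g ε ε' j) *
            -(d ^ ((wt g i + wt g j) / 2) * hk g 1 γ (rho g i) (rho g j)) := by ring
          _ = _ := by rw [sg_sq h1 h2 j, one_mul]
    have h6 : (aᵀ * S * a) i j - S0 g d c γ i j =
        ((aᵀ * S * a) i j - sg g ε ε' i * S i j * sg g ε ε' j) +
          sg g ε ε' i * (S i j - S0 g d c γ i j) * sg g ε ε' j := by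
      conv_lhs => rw [← h5]
      ring
    rw [h6]
    exact dvd_add h3 h4

end Pool.PRK.Blk
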