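import Pool.Agent.H17.PRK.BlkB

/-!
# PRK: counting matrices in boxes
-/

set_option autoImplicit false

namespace Pool.PRK.Blk

open Matrix

section Box

variable {A : Type} [Finite A] {n : ℕ}

theorem ncard_box (B : Fin n → Fin n → Set A) :
    {a : Matrix (Fin n) (Fin n) A | ∀ i j, a i j ∈ B i j}.ncard = ∏ i, ∏ j, (B i j).ncard := by
  rw [← Nat.card_coe_set_eq]
  have e : {a : Matrix (Fin n) (Fin n) A | ∀ i j, a i j ∈ B i j} ≃ ∀ i j, B i j :=
    ⟨fun a i j => ⟨a.1 i j, a.2 i j⟩, fun f => ⟨Matrix.of fun i j => (f i j).1, fun i j => (f i j).2⟩,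
      fun a => rfl, fun f => rfl⟩
  rw [Nat.card_congr e, Nat.card_pi]
  refine Finset.prod_congr rfl fun i _ => ?_
  rw [Nat.card_pi]
  refine Finset.prod_congr rfl fun j _ => ?_
  exact Nat.card_coe_set_eq _

theorem sym_le [Zero A] (B : Fin n → Fin n → Set A) :
    {a : Matrix (Fin n) (Fin n) A | aᵀ = a ∧ ∀ i j, a i j ∈ B i j}.ncard ≤
      ∏ i, ∏ j, if i ≤ j then (B i j).ncard else 1 := by
  have h1 := ncard_box (n := n) (fun i j => if i ≤ j then B i j else ({0} : Set A))
  have h2 : ∀ i j : Fin n, (if i ≤ j then B i j else ({0} : Set A)).ncard =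
      if i ≤ j then (B i j).ncard else 1 := by
    intro i j
    split_ifs
    · rfl
    · exact Set.ncard_singleton _
  simp only [h2] at h1
  rw [← h1]
  refine Set.ncard_le_ncard_of_injOn (fun a => Matrix.of fun i j => if i ≤ j then a i j else 0)
    ?_ ?_ (Set.toFinite _)
  · rintro a ⟨_, ha⟩ i j
    simp only [of_apply]
    split_ifs
    · exact ha i j
    · exact Set.mem_singleton _
  · rintro a ⟨ha, _⟩ b ⟨hb, _⟩ hab
    ext i j
    have h3 : ∀ i j : Fin n, i ≤ j → a i j = b i j := by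
      intro i j hij
      have := congrFun (congrFun hab i) j
      simpa [hij] using this
    rcases le_total i j with h | h
    · exact h3 i j h
    · have h4 : a i j = a j i := by
        conv_lhs => rw [← ha]
        rfl
      have h5 : b i j = b j i := by
        conv_lhs => rw [← hb]
        rfl
      rw [h4, h5]
      exact h3 j i h

end Box

section Sums

/-- Sums of functions of the weight. -/
theorem sum_wt (g : ℕ) (F : ℕ → ℕ) :
    ∑ i : Fin (2 * g + 1), F (wt g i) = g * F 0 + F 1 + g * F 2 := by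
  have h1 : ∑ i : Fin (2 * g + 1), F (wt g i) =
      ∑ i ∈ Finset.range (2 * g + 1), F (if i < g then 0 else if i = g then 1 else 2) :=
    Fin.sum_univ_eq_sum_range (fun i => F (if i < g then 0 else if i = g then 1 else 2)) (2 * g + 1)
  rw [h1, show 2 * g + 1 = g + (1 + g) by ring, Finset.sum_range_add, Finset.sum_range_add]
  have h2 : ∑ i ∈ Finset.range g, F (if i < g then 0 else if i = g then 1 else 2) = g * F 0 := by
    rw [Finset.sum_congr rfl (fun i hi => by rw [if_pos (Finset.mem_range.mp hi)])]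
    simp
  have h3 : ∑ i ∈ Finset.range 1, F (if g + i < g then 0 else if g + i = g then 1 else 2) = F 1 := by
    simp
  have h4 : ∑ i ∈ Finset.range g,
      F (if g + (1 + i) < g then 0 else if g + (1 + i) = g then 1 else 2) = g * F 2 := by
    rw [Finset.sum_congr rfl (fun i _ => by
      rw [if_neg (by omega), if_neg (by omega)])]
    simp
  rw [h2, h3, h4]
  ring

theorem sum_wt2 (g : ℕ) (F : ℕ → ℕ → ℕ) :
    ∑ i : Fin (2 * g + 1), ∑ j : Fin (2 * g + 1), F (wt g i) (wt g j) =
      g * (g * F 0 0 + F 0 1 + g * F 0 2) + (g * F 1 0 + F 1 1 + g * F 1 2) +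
        g * (g * F 2 0 + F 2 1 + g * F 2 2) := by
  have h1 : ∀ i : Fin (2 * g + 1), ∑ j : Fin (2 * g + 1), F (wt g i) (wt g j) =
      g * F (wt g i) 0 + F (wt g i) 1 + g * F (wt g i) 2 := fun i => sum_wt g _
  rw [Finset.sum_congr rfl fun i _ => h1 i]
  exact sum_wt g (fun x => g * F x 0 + F x 1 + g * F x 2)

theorem sum_le {n : ℕ} (f : Fin n → Fin n → ℕ) (hf : ∀ i j, f i j = f j i) :
    2 * (∑ i, ∑ j, if i ≤ j then f i j else 0) = (∑ i, ∑ j, f i j) + ∑ i, f i i := by
  have h1 : (∑ i, ∑ j, if i ≤ j then f i j else 0) = ∑ i, ∑ j, if j ≤ i then f i j else 0 := by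
    rw [Finset.sum_comm]
    refine Finset.sum_congr rfl fun i _ => Finset.sum_congr rfl fun j _ => ?_
    rw [hf j i]
  have h2 : (∑ i, ∑ j, if i ≤ j then f i j else 0) + (∑ i, ∑ j, if j ≤ i then f i j else 0) =
      (∑ i, ∑ j, f i j) + ∑ i, f i i := by
    rw [← Finset.sum_add_distrib, ← Finset.sum_add_distrib]
    refine Finset.sum_congr rfl fun i _ => ?_
    rw [← Finset.sum_add_distrib]
    have h3 : f i i = ∑ j, if j = i then f i j else 0 := by simp
    rw [h3, ← Finset.sum_add_distrib]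
    refine Finset.sum_congr rfl fun j _ => ?_
    rcases lt_trichotomy i j with h | h | h
    · rw [if_pos h.le, if_neg (not_le.mpr h), if_neg h.ne']
    · subst h; simp
    · rw [if_neg (not_le.mpr h), if_pos h.le, if_neg h.ne]
      ring
  omega

theorem prod_pow_le {n : ℕ} (q : ℕ) (f : Fin n → Fin n → ℕ) :
    (∏ i, ∏ j, if i ≤ j then q ^ f i j else 1) = q ^ (∑ i, ∑ j, if i ≤ j then f i j else 0) := by
  rw [← Finset.prod_pow_eq_pow_sum]
  refine Finset.prod_congr rfl fun i _ => ?_
  rw [← Finset.prod_pow_eq_pow_sum]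
  refine Finset.prod_congr rfl fun j _ => ?_
  split_ifs
  · rfl
  · simp

end Sums

end Pool.PRK.Blk
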