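import Pool.Agent.H17.PRK.BlkC

/-!
# PRK: FBG and FBB
-/

set_option autoImplicit false

namespace Pool.PRK

open Matrix Polynomial Pool.HYP Blk

/-- FBB. -/
theorem fbb : FBBStmt := by
  intro A _ _ _ d q g hg hm hA hq h2 c γ hγ hγd
  classical
  have hq2 := q_ge hm hq
  set SG := {G : Matrix (Fin (2 * g + 1)) (Fin (2 * g + 1)) A | Gᵀ = G ∧
    ∀ i j, G i j ∈ {x : A | d ^ ((wt g i + wt g j) / 2) ∣ x - G0 g d γ i j}} with hSG
  set SS := {S : Matrix (Fin (2 * g + 1)) (Fin (2 * g + 1)) A | Sᵀ = S ∧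
    ∀ i j, S i j ∈ {x : A | d ^ ((wt g i + wt g j) / 2 + 1) ∣ x - S0 g d c γ i j}} with hSS
  have h1 : {p : Matrix (Fin (2 * g + 1)) (Fin (2 * g + 1)) A ×
        Matrix (Fin (2 * g + 1)) (Fin (2 * g + 1)) A |
      p.1ᵀ = p.1 ∧ p.2ᵀ = p.2 ∧ BlkD g d c γ p.1 p.2}.ncard ≤ SG.ncard * SS.ncard := by
    rw [← Set.ncard_prod]
    refine Set.ncard_le_ncard ?_ (Set.toFinite _)
    rintro ⟨G, S⟩ ⟨hG, hS, hb⟩
    have h3 := (blk_iff c γ G S hG hS).mp hb
    exact ⟨⟨hG, h3.1⟩, ⟨hS, h3.2⟩⟩
  have hG1 : SG.ncard ≤ q ^ (∑ i : Fin (2 * g + 1), ∑ j : Fin (2 * g + 1),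
      if i ≤ j then 3 - (wt g i + wt g j) / 2 else 0) := by
    refine (sym_le _).trans (le_of_eq ?_)
    rw [← prod_pow_le]
    refine Finset.prod_congr rfl fun i _ => Finset.prod_congr rfl fun j _ => ?_
    rw [card_coset hm hA hq _ (by have := wt_le g i; have := wt_le g j; omega)]
  have hS1 : SS.ncard ≤ q ^ (∑ i : Fin (2 * g + 1), ∑ j : Fin (2 * g + 1),
      if i ≤ j then 3 - ((wt g i + wt g j) / 2 + 1) else 0) := by
    refine (sym_le _).trans (le_of_eq ?_)
    rw [← prod_pow_le]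
    refine Finset.prod_congr rfl fun i _ => Finset.prod_congr rfl fun j _ => ?_
    rw [card_coset hm hA hq _ (by have := wt_le g i; have := wt_le g j; omega)]
  have eG : 2 * (∑ i : Fin (2 * g + 1), ∑ j : Fin (2 * g + 1),
      if i ≤ j then 3 - (wt g i + wt g j) / 2 else 0) =
      2 * (4 * g ^ 2 + 7 * g + 2) := by
    rw [sum_le (fun i j => 3 - (wt g i + wt g j) / 2) (fun i j => by rw [add_comm]),
      sum_wt2 g (fun x y => 3 - (x + y) / 2), sum_wt g (fun x => 3 - (x + x) / 2)]
    norm_num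
    ring
  have eS : 2 * (∑ i : Fin (2 * g + 1), ∑ j : Fin (2 * g + 1),
      if i ≤ j then 3 - ((wt g i + wt g j) / 2 + 1) else 0) =
      2 * (2 * g ^ 2 + 4 * g + 1) := by
    rw [sum_le (fun i j => 3 - ((wt g i + wt g j) / 2 + 1)) (fun i j => by rw [add_comm (wt g i)]),
      sum_wt2 g (fun x y => 3 - ((x + y) / 2 + 1)), sum_wt g (fun x => 3 - ((x + x) / 2 + 1))]
    norm_num
    ring
  have eG' := Nat.eq_of_mul_eq_mul_left (by norm_num) eG
  have eS' := Nat.eq_of_mul_eq_mul_left (by norm_num) eS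
  rw [eG'] at hG1
  rw [eS'] at hS1
  calc _ ≤ (q ^ (4 * g ^ 2 + 7 * g + 2) * q ^ (2 * g ^ 2 + 4 * g + 1)) *
        q ^ (6 * g ^ 2 + 7 * g + 3) :=
        Nat.mul_le_mul_right _ (h1.trans (Nat.mul_le_mul hG1 hS1))
    _ = q ^ (6 * ((2 * g + 1) * (g + 1))) := by
        rw [← pow_add, ← pow_add]
        congr 1
        ring

/-- FBG. -/
theorem fbg : FBGStmt := by
  intro A _ _ _ d q g hg hm hA hq h2
  classical
  have hq2 := q_ge hm hq
  have hd : ¬ IsUnit d := by
    rw [isUnit_iff hm]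
    exact fun h => h dvd_rfl
  refine ⟨?_, ?_, ?_, ?_⟩
  · intro a ha b hb
    rw [qgr_iff] at ha hb ⊢
    obtain ⟨ε₁, ε₁', h3, h4, h5⟩ := ha
    obtain ⟨ε₂, ε₂', h6, h7, h8⟩ := hb
    refine ⟨ε₁ * ε₂, ε₁' * ε₂', ?_, ?_, ?_⟩
    · rcases h3 with rfl | rfl <;> rcases h6 with rfl | rfl <;> simp
    · rcases h4 with rfl | rfl <;> rcases h7 with rfl | rfl <;> simp
    · have h9 := qu_mul h5 h8
      have h10 : (fun i => sg g ε₁ ε₁' i * sg g ε₂ ε₂' i) = sg g (ε₁ * ε₂) (ε₁' * ε₂') := by
        funext i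
        unfold sg
        split_ifs <;> rfl
      rwa [h10] at h9
  · intro a ha
    rw [qgr_iff] at ha
    obtain ⟨ε, ε', h3, h4, h5⟩ := ha
    rw [isUnit_iff hm, ← Ideal.mem_span_singleton, ← Ideal.Quotient.eq_zero_iff_mem, RingHom.map_det]
    have h6 : ((Ideal.Quotient.mk (Ideal.span {d})).mapMatrix a).BlockTriangular
        (OrderDual.toDual : Fin (2 * g + 1) → (Fin (2 * g + 1))ᵒᵈ) := by
      intro i j hij
      have hij' : i < j := hij
      rw [RingHom.mapMatrix_apply, map_apply, Ideal.Quotient.eq_zero_iff_mem,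
        Ideal.mem_span_singleton]
      have h7 := h5 i j
      rw [if_neg hij'.ne, sub_zero] at h7
      refine dvd_trans ?_ h7
      have h8 : 1 ≤ (wt g j + 2 - wt g i) / 2 := by
        have h9 : (i : ℕ) < j := hij'
        rcases wt_cases i with ⟨hi, hwi⟩ | ⟨hi, hwi⟩ | ⟨hi, hwi⟩ <;>
        rcases wt_cases j with ⟨hj, hwj⟩ | ⟨hj, hwj⟩ | ⟨hj, hwj⟩ <;>
        rw [hwi, hwj] <;> omega
      exact dvd_pow_self d (by omega)
    rw [Matrix.det_of_lowerTriangular _ h6]
    have h7 : ∀ i, ((Ideal.Quotient.mk (Ideal.span {d})).mapMatrix a) i i =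
        Ideal.Quotient.mk (Ideal.span {d}) (sg g ε ε' i) := by
      intro i
      rw [RingHom.mapMatrix_apply, map_apply, Ideal.Quotient.eq, Ideal.mem_span_singleton]
      have h8 := h5 i i
      rw [if_pos rfl] at h8
      have h9 : (wt g i + 2 - wt g i) / 2 = 1 := by omega
      rwa [h9, pow_one] at h8
    simp only [h7]
    rw [← map_prod, Ideal.Quotient.eq_zero_iff_mem, Ideal.mem_span_singleton]
    intro h8
    have h9 : IsUnit (∏ i, sg g ε ε' i) := by
      rw [IsUnit.prod_univ_iff]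
      intro i
      exact IsUnit.of_mul_eq_one _ (sg_sq h3 h4 i)
    rw [isUnit_iff hm] at h9
    exact h9 h8
  · intro c γ G S a hγ hγd ha hG hS hb
    rw [qgr_iff] at ha
    obtain ⟨ε, ε', h3, h4, h5⟩ := ha
    have h6 : (aᵀ * G * a)ᵀ = aᵀ * G * a := by
      rw [transpose_mul, transpose_mul, transpose_transpose, hG, Matrix.mul_assoc]
    have h7 : (aᵀ * S * a)ᵀ = aᵀ * S * a := by
      rw [transpose_mul, transpose_mul, transpose_transpose, hS, Matrix.mul_assoc]
    rw [blk_iff c γ _ _ h6 h7]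
    exact bu_cong h3 h4 c γ h5 ((blk_iff c γ G S hG hS).mp hb)
  · -- the number of elements
    set B1 := {a : Matrix (Fin (2 * g + 1)) (Fin (2 * g + 1)) A |
      ∀ i j, a i j ∈ {x : A | d ^ ((wt g j + 2 - wt g i) / 2) ∣ x - if i = j then 1 else 0}} with hB1
    have hB1c : B1.ncard * q ^ (4 * g ^ 2 + 2 * g + 1) = q ^ (3 * (2 * g + 1) ^ 2) := by
      rw [hB1, ncard_box]
      have h3 : ∀ i j : Fin (2 * g + 1),
          {x : A | d ^ ((wt g j + 2 - wt g i) / 2) ∣ x - if i = j then 1 else 0}.ncard =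
          q ^ (3 - (wt g j + 2 - wt g i) / 2) := by
        intro i j
        exact card_coset hm hA hq _ (by have := wt_le g i; have := wt_le g j; omega) _
      simp only [h3, Finset.prod_pow_eq_pow_sum]
      rw [sum_wt2 g (fun x y => 3 - (y + 2 - x) / 2), ← pow_add]
      congr 1
      norm_num
      ring
    rw [← hB1c, ← mul_assoc]
    refine Nat.mul_le_mul_right _ ?_
    -- the four translates
    let sn : Fin 2 → A := fun t => if t = 0 then 1 else -1
    have hsn : ∀ t, sn t = 1 ∨ sn t = -1 := by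
      intro t
      simp only [sn]
      split_ifs
      · exact Or.inl rfl
      · exact Or.inr rfl
    have hsn2 : ∀ t t', d ∣ sn t - sn t' → t = t' := by
      intro t t' h
      by_contra hne
      have h3 : sn t - sn t' = 2 ∨ sn t - sn t' = -2 := by
        fin_cases t <;> fin_cases t' <;> simp [sn] at hne ⊢ <;> norm_num
      have h4 : d ∣ 2 := by
        rcases h3 with h3 | h3
        · rwa [h3] at h
        · rw [h3] at h
          exact (dvd_neg.mp h)
      rw [isUnit_iff hm] at h2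
      exact h2 h4
    have hcard : (4 : ℕ) * B1.ncard = ((Set.univ : Set (Fin 2 × Fin 2)) ×ˢ B1).ncard := by
      rw [Set.ncard_prod, Set.ncard_univ]
      simp
    rw [hcard]
    refine Set.ncard_le_ncard_of_injOn
      (fun x => x.2 + diagonal fun i => sg g (sn x.1.1) (sn x.1.2) i - 1) ?_ ?_ (Set.toFinite _)
    · rintro ⟨⟨t, t'⟩, a⟩ ⟨_, ha⟩
      rw [qgr_iff]
      refine ⟨sn t, sn t', hsn t, hsn t', fun i j => ?_⟩
      have h3 := ha i j
      simp only [Set.mem_ofPred_eq] at h3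
      have h4 : (a + diagonal fun i => sg g (sn t) (sn t') i - 1) i j -
          (if i = j then sg g (sn t) (sn t') i else 0) = a i j - if i = j then 1 else 0 := by
        rw [Matrix.add_apply, diagonal_apply]
        split_ifs <;> ring
      rw [h4]
      exact h3
    · rintro ⟨⟨t, t'⟩, a⟩ ⟨_, ha⟩ ⟨⟨r, r'⟩, b⟩ ⟨_, hb⟩ hab
      simp only at hab
      have h3 : ∀ i, a i i + (sg g (sn t) (sn t') i - 1) = b i i + (sg g (sn r) (sn r') i - 1) := by
        intro i
        have := congrFun (congrFun hab i) i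
        simpa using this
      have h4 : ∀ i, d ∣ sg g (sn t) (sn t') i - sg g (sn r) (sn r') i := by
        intro i
        have h5 := ha i i
        have h6 := hb i i
        simp only [Set.mem_ofPred_eq, if_true] at h5 h6
        have h9 : (wt g i + 2 - wt g i) / 2 = 1 := by omega
        rw [h9, pow_one] at h5 h6
        have h7 : sg g (sn t) (sn t') i - sg g (sn r) (sn r') i = (b i i - 1) - (a i i - 1) := by
          linear_combination h3 i
        rw [h7]
        exact dvd_sub h6 h5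
      have h5 : t = r := by
        apply hsn2
        have h10 := h4 ⟨0, by omega⟩
        have hw : wt g (⟨0, by omega⟩ : Fin (2 * g + 1)) = 0 := wt0 (by change 0 < g; omega)
        unfold sg at h10
        rw [hw, if_neg (by norm_num), if_neg (by norm_num)] at h10
        exact h10
      have h6 : t' = r' := by
        apply hsn2
        have h10 := h4 ⟨g, by omega⟩
        have hw : wt g (⟨g, by omega⟩ : Fin (2 * g + 1)) = 1 := wt1 rfl
        unfold sg at h10
        rw [hw, if_pos rfl, if_pos rfl] at h10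
        exact h10
      subst h5 h6
      have h7 : a = b := add_right_cancel hab
      rw [h7]

end Pool.PRK
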