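import Pool.Agent.H17.PRK.FBG

/-!
# PRK: FBQ
-/

set_option autoImplicit false

namespace Pool.PRK

open Matrix Polynomial Pool.HYP Blk

namespace Blk

section Act

variable {A : Type} [CommRing A] {n : ℕ}

theorem act_inv {a : Matrix (Fin n) (Fin n) A} (ha : IsUnit a.det) (G : Matrix (Fin n) (Fin n) A) :
    (a⁻¹)ᵀ * (aᵀ * G * a) * a⁻¹ = G := by
  have h1 : (a⁻¹)ᵀ * aᵀ = 1 := by
    rw [← transpose_mul, mul_nonsing_inv _ ha, transpose_one]
  calc (a⁻¹)ᵀ * (aᵀ * G * a) * a⁻¹ = ((a⁻¹)ᵀ * aᵀ) * G * (a * a⁻¹) := by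
        simp only [Matrix.mul_assoc]
    _ = G := by rw [h1, mul_nonsing_inv _ ha, Matrix.one_mul, Matrix.mul_one]

theorem act_mul (a b G : Matrix (Fin n) (Fin n) A) :
    (a * b)ᵀ * G * (a * b) = bᵀ * (aᵀ * G * a) * b := by
  rw [transpose_mul]
  simp only [Matrix.mul_assoc]

theorem act_symm {G : Matrix (Fin n) (Fin n) A} (hG : Gᵀ = G) (a : Matrix (Fin n) (Fin n) A) :
    (aᵀ * G * a)ᵀ = aᵀ * G * a := by
  rw [transpose_mul, transpose_mul, transpose_transpose, hG, Matrix.mul_assoc]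

end Act

end Blk

/-- FBQ. -/
theorem fbq (hFBB : FBBStmt) (hFBG : FBGStmt) : FBQStmt := by
  intro A _ _ _ d q g hg hm hA hq h2 c γ hγ hγd
  classical
  have hq2 := q_ge hm hq
  have hbox := hFBB A d q g hg hm hA hq h2 c γ hγ hγd
  obtain ⟨_, hG2, hG3, hG4⟩ := hFBG A d q g hg hm hA hq h2
  set Box := {p : Matrix (Fin (2 * g + 1)) (Fin (2 * g + 1)) A ×
        Matrix (Fin (2 * g + 1)) (Fin (2 * g + 1)) A |
      p.1ᵀ = p.1 ∧ p.2ᵀ = p.2 ∧ BlkD g d c γ p.1 p.2} with hBox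
  set Sh := {p : Matrix (Fin (2 * g + 1)) (Fin (2 * g + 1)) A ×
        Matrix (Fin (2 * g + 1)) (Fin (2 * g + 1)) A | ShA g d c γ p.1 p.2} with hSh
  have hch : ∀ p ∈ Sh, ∃ a : Matrix (Fin (2 * g + 1)) (Fin (2 * g + 1)) A, IsUnit a.det ∧
      BlkD g d c γ (aᵀ * p.1 * a) (aᵀ * p.2 * a) := fun p hp => hp.2.2
  choose! al hal1 hal2 using hch
  have hmain : ((QGr (A := A) g d) ×ˢ Sh).ncard ≤
      ((Set.univ : Set (Matrix (Fin (2 * g + 1)) (Fin (2 * g + 1)) A)) ×ˢ Box).ncard := by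
    refine Set.ncard_le_ncard_of_injOn
      (fun x => (al x.2 * x.1, (x.1ᵀ * ((al x.2)ᵀ * x.2.1 * al x.2) * x.1,
        x.1ᵀ * ((al x.2)ᵀ * x.2.2 * al x.2) * x.1))) ?_ ?_ (Set.toFinite _)
    · rintro ⟨u, p⟩ ⟨hu, hp⟩
      refine ⟨Set.mem_univ _, ?_, ?_, ?_⟩
      · exact act_symm (act_symm hp.1 _) _
      · exact act_symm (act_symm hp.2.1 _) _
      · exact hG3 c γ _ _ u hγ hγd hu (act_symm hp.1 _) (act_symm hp.2.1 _) (hal2 p hp)
    · rintro ⟨u, p⟩ ⟨hu, hp⟩ ⟨v, r⟩ ⟨hv, hr⟩ heq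
      simp only [Prod.mk.injEq] at heq
      obtain ⟨h3, h4, h5⟩ := heq
      have hu' : IsUnit (al p * u).det := by
        rw [det_mul]
        exact (hal1 p hp).mul (hG2 u hu)
      rw [← act_mul, ← act_mul, ← h3] at h4 h5
      have h6 : p.1 = r.1 := by
        rw [← act_inv hu' p.1, h4, act_inv hu']
      have h7 : p.2 = r.2 := by
        rw [← act_inv hu' p.2, h5, act_inv hu']
      have h8 : p = r := Prod.ext h6 h7
      subst h8
      have h9 : u = v := by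
        have h10 : (al p)⁻¹ * (al p * u) = (al p)⁻¹ * (al p * v) := by rw [h3]
        rwa [← Matrix.mul_assoc, ← Matrix.mul_assoc, nonsing_inv_mul _ (hal1 p hp), Matrix.one_mul,
          Matrix.one_mul] at h10
      rw [h9]
  rw [Set.ncard_prod, Set.ncard_prod, Set.ncard_univ] at hmain
  have hM : Nat.card (Matrix (Fin (2 * g + 1)) (Fin (2 * g + 1)) A) = q ^ (3 * (2 * g + 1) ^ 2) := by
    have : Nat.card (Matrix (Fin (2 * g + 1)) (Fin (2 * g + 1)) A) =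
        Nat.card (Fin (2 * g + 1) → Fin (2 * g + 1) → A) := rfl
    rw [this, Nat.card_fun, Nat.card_fun, Nat.card_fin, hA, ← pow_mul, ← pow_mul]
    congr 1
    ring
  rw [hM] at hmain
  have hqpos : 0 < q := by omega
  have h3 : 4 * Sh.ncard ≤ q ^ (4 * g ^ 2 + 2 * g + 1) * Box.ncard := by
    have h4 : q ^ (3 * (2 * g + 1) ^ 2) * (4 * Sh.ncard) ≤
        q ^ (3 * (2 * g + 1) ^ 2) * (q ^ (4 * g ^ 2 + 2 * g + 1) * Box.ncard) := by
      calc q ^ (3 * (2 * g + 1) ^ 2) * (4 * Sh.ncard)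
          = (4 * q ^ (3 * (2 * g + 1) ^ 2)) * Sh.ncard := by ring
        _ ≤ ((QGr (A := A) g d).ncard * q ^ (4 * g ^ 2 + 2 * g + 1)) * Sh.ncard :=
            Nat.mul_le_mul_right _ hG4
        _ = q ^ (4 * g ^ 2 + 2 * g + 1) * ((QGr (A := A) g d).ncard * Sh.ncard) := by ring
        _ ≤ q ^ (4 * g ^ 2 + 2 * g + 1) * (q ^ (3 * (2 * g + 1) ^ 2) * Box.ncard) :=
            Nat.mul_le_mul_left _ hmain
        _ = _ := by ring
    exact Nat.le_of_mul_le_mul_left h4 (by positivity)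
  calc 4 * Sh.ncard * q ^ ((2 * g + 1) * (g + 2))
      ≤ (q ^ (4 * g ^ 2 + 2 * g + 1) * Box.ncard) * q ^ ((2 * g + 1) * (g + 2)) :=
        Nat.mul_le_mul_right _ h3
    _ = Box.ncard * q ^ (6 * g ^ 2 + 7 * g + 3) := by
        have h5 : q ^ (6 * g ^ 2 + 7 * g + 3) =
            q ^ (4 * g ^ 2 + 2 * g + 1) * q ^ ((2 * g + 1) * (g + 2)) := by
          rw [← pow_add]
          congr 1
          ring
        rw [h5]
        ring
    _ ≤ q ^ (6 * ((2 * g + 1) * (g + 1))) := hbox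

end Pool.PRK
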